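import Mathlib

/-!
# Complete returns to palindromes under two morphisms
-/

namespace Pool.Agent.KS6_71.TM

variable {α : Type*}

/-- the factor `u[i, e)` is a palindrome -/
def PalI (u : ℕ → α) (i e : ℕ) : Prop := ∀ x y, i ≤ x → i ≤ y → x + y + 1 = i + e → u x = u y

/-- the factors of length `n` at `i` and at `j` agree -/
def EqF (u : ℕ → α) (i j n : ℕ) : Prop := ∀ t < n, u (i + t) = u (j + t)

/-- complete returns to palindromes within the first `N` letters are palindromes -/
def CRN (u : ℕ → α) (N : ℕ) : Prop :=
  ∀ i j n, 0 < n → i < j → j + n ≤ N → PalI u i (i + n) → EqF u i j n →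
    (∀ m, i < m → m < j → ¬ EqF u i m n) → PalI u i (j + n)

/-- `a ↦ a a` -/
def D (u : ℕ → α) : ℕ → α := fun n => u (n / 2)

/-- `a ↦ 0 a` -/
def Ph (u : ℕ → ZMod 2) : ℕ → ZMod 2 := fun n => if n % 2 = 0 then 0 else u (n / 2)

/-- a return word to a power of a letter `c` -/
lemma return_const (v : ℕ → α) (c : α) (i j n : ℕ) (_hn : 0 < n) (hij : i + 1 < j)
    (hc : ∀ t < n, v (i + t) = c) (he : EqF v i j n)
    (hm : ∀ m, i < m → m < j → ¬ EqF v i m n) :
    v (i + n) ≠ c ∧ v (j - 1) ≠ c ∧ i + n < j := by
  have hc' : ∀ t < n, v (j + t) = c := fun t ht => by rw [← he t ht]; exact hc t ht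
  have h1 : v (i + n) ≠ c := by
    intro h
    refine hm (i + 1) (by omega) hij fun t ht => ?_
    rw [hc t ht]
    rcases Nat.lt_or_ge (t + 1) n with h2 | h2
    · have := hc (t + 1) h2
      rw [show i + 1 + t = i + (t + 1) by ring, this]
    · rw [show i + 1 + t = i + n by omega, h]
  have h2 : v (j - 1) ≠ c := by
    intro h
    refine hm (j - 1) (by omega) (by omega) fun t ht => ?_
    rw [hc t ht]
    rcases Nat.eq_zero_or_pos t with h3 | h3
    · subst h3
      rw [Nat.add_zero, h]
    · have := hc' (t - 1) (by omega)
      rw [show j - 1 + t = j + (t - 1) by omega, this]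
  refine ⟨h1, h2, ?_⟩
  by_contra h
  apply h1
  have := hc' (i + n - j) (by omega)
  rwa [show j + (i + n - j) = i + n by omega] at this

/-- if the factor is a power of a letter and the two occurrences overlap by a shift of one -/
lemma pal_const (v : ℕ → α) (c : α) (i j n : ℕ) (hij : i + 1 = j)
    (hc : ∀ t < n, v (i + t) = c) (hn : 0 < n) (he : EqF v i j n) : PalI v i (j + n) := by
  have hall : ∀ x, i ≤ x → x < j + n → v x = c := by
    intro x hx hx'
    rcases Nat.lt_or_ge x (i + n) with h | h
    · have := hc (x - i) (by omega)
      rwa [show i + (x - i) = x by omega] at this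
    · have h1 : x = j + (n - 1) := by omega
      rw [h1, ← he (n - 1) (by omega)]
      exact hc (n - 1) (by omega)
  intro x y hx hy hxy
  rw [hall x hx (by omega), hall y hy (by omega)]

theorem CRN_D (u : ℕ → α) (N : ℕ) (hu : CRN u N) : CRN (D u) (2 * N) := by
  classical
  intro i j n hn hij hN hp he hm
  by_cases hconst : ∀ t, t + 1 < n → D u (i + t) = D u (i + (t + 1))
  · -- the palindrome is a power of a letter
    set c := D u i with hc0
    have hc : ∀ t < n, D u (i + t) = c := by
      intro t
      induction t with
      | zero => intro _; rfl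
      | succ t ih => intro ht; rw [← hconst t ht]; exact ih (by omega)
    rcases Nat.eq_or_lt_of_le (Nat.succ_le_of_lt hij) with h1 | h1
    · exact pal_const _ c i j n h1 hc hn he
    obtain ⟨h2, h3, h4⟩ := return_const _ c i j n hn h1 hc he hm
    have hc' : ∀ t < n, D u (j + t) = c := fun t ht => by rw [← he t ht]; exact hc t ht
    -- `i + n` and `j` are even
    have e1 : (i + n) % 2 = 0 := by
      by_contra hodd
      apply h2
      have := hc (n - 1) (by omega)
      rw [← this]
      unfold D
      congr 1
      omega
    have e2 : j % 2 = 0 := by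
      by_contra hodd
      apply h3
      have := hc' 0 hn
      rw [← this]
      unfold D
      congr 1
      omega
    obtain ⟨a, ha⟩ : ∃ a, i + n = 2 * a := ⟨(i + n) / 2, by omega⟩
    obtain ⟨b, hb⟩ : ∃ b, j = 2 * b := ⟨j / 2, by omega⟩
    set q := (n + 1) / 2 with hq
    have key : PalI u (a - q) (b + q) := by
      refine hu (a - q) b q (by omega) (by omega) (by omega) ?_ ?_ ?_
      · intro x y hx hy hxy
        have hx' : u x = c := by
          have := hc (2 * x + 1 - i) (by omega)
          rw [← this]
          unfold D
          congr 1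
          omega
        have hy' : u y = c := by
          have := hc (2 * y + 1 - i) (by omega)
          rw [← this]
          unfold D
          congr 1
          omega
        rw [hx', hy']
      · intro t ht
        have hx' : u (a - q + t) = c := by
          have := hc (2 * (a - q + t) + 1 - i) (by omega)
          rw [← this]
          unfold D
          congr 1
          omega
        have hy' : u (b + t) = c := by
          have := hc' (2 * t) (by omega)
          rw [← this]
          unfold D
          congr 1
          omega
        rw [hx', hy']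
      · intro m hm1 hm2 heq
        have hcm : ∀ t < q, u (m + t) = c := by
          intro t ht
          rw [← heq t ht]
          have := hc (2 * (a - q + t) + 1 - i) (by omega)
          rw [← this]
          unfold D
          congr 1
          omega
        refine hm (2 * m + i % 2) (by omega) (by omega) fun t ht => ?_
        rw [hc t ht]
        have := hcm ((t + i % 2) / 2) (by omega)
        rw [← this]
        unfold D
        congr 1
        omega
    intro x y hx hy hxy
    rcases Nat.lt_or_ge x (i + n) with h5 | h5
    · have e3 := hc (x - i) (by omega)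
      have e4 := hc' (y - j) (by omega)
      rw [show i + (x - i) = x by omega] at e3
      rw [show j + (y - j) = y by omega] at e4
      rw [e3, e4]
    · rcases Nat.lt_or_ge y (i + n) with h6 | h6
      · have e3 := hc (y - i) (by omega)
        have e4 := hc' (x - j) (by omega)
        rw [show i + (y - i) = y by omega] at e3
        rw [show j + (x - j) = x by omega] at e4
        rw [e3, e4]
      · unfold D
        exact key (x / 2) (y / 2) (by omega) (by omega) (by omega)
  · push Not at hconst
    obtain ⟨t0, ht0, hne⟩ := hconst
    have e1 : (i + t0) % 2 = 1 := by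
      by_contra h
      apply hne
      unfold D
      congr 1
      omega
    have hne2 : D u (j + t0) ≠ D u (j + (t0 + 1)) := by
      rw [← he t0 (by omega), ← he (t0 + 1) ht0]
      exact hne
    have e2 : (j + t0) % 2 = 1 := by
      by_contra h
      apply hne2
      unfold D
      congr 1
      omega
    have e3 : D u (i + t0) = D u (i + n - 1 - t0) :=
      hp _ _ (by omega) (by omega) (by omega)
    have e4 : D u (i + (t0 + 1)) = D u (i + n - 2 - t0) :=
      hp _ _ (by omega) (by omega) (by omega)
    have e5 : (i + n - 2 - t0) % 2 = 1 := by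
      by_contra h
      apply hne
      rw [e3, e4]
      unfold D
      congr 1
      omega
    -- `n` is even, `i` and `j` have the same parity
    have hneven : n % 2 = 0 := by omega
    have hpar : i % 2 = j % 2 := by omega
    have key : PalI u (i / 2) (j / 2 + (n / 2 + i % 2)) := by
      refine hu (i / 2) (j / 2) (n / 2 + i % 2) (by omega) (by omega) (by omega) ?_ ?_ ?_
      · intro x y hx hy hxy
        by_cases hx2 : x = i / 2
        · have := hp (2 * x + i % 2) (2 * y + 1 - i % 2) (by omega) (by omega) (by omega)
          unfold D at this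
          rwa [show (2 * x + i % 2) / 2 = x by omega,
            show (2 * y + 1 - i % 2) / 2 = y by omega] at this
        · have := hp (2 * x) (2 * y + 1) (by omega) (by omega) (by omega)
          unfold D at this
          rwa [show (2 * x) / 2 = x by omega, show (2 * y + 1) / 2 = y by omega] at this
      · intro t ht
        have := he (2 * t - i % 2) (by omega)
        unfold D at this
        rwa [show (i + (2 * t - i % 2)) / 2 = i / 2 + t by omega,
          show (j + (2 * t - i % 2)) / 2 = j / 2 + t by omega] at this
      · intro m hm1 hm2 heq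
        refine hm (2 * m + i % 2) (by omega) (by omega) fun t ht => ?_
        have := heq ((i % 2 + t) / 2) (by omega)
        unfold D
        rwa [show (i + t) / 2 = i / 2 + (i % 2 + t) / 2 by omega,
          show (2 * m + i % 2 + t) / 2 = m + (i % 2 + t) / 2 by omega]
    intro x y hx hy hxy
    unfold D
    exact key (x / 2) (y / 2) (by omega) (by omega) (by omega)

lemma Ph_even (u : ℕ → ZMod 2) (x : ℕ) (hx : x % 2 = 0) : Ph u x = 0 := by
  unfold Ph
  rw [if_pos hx]

lemma Ph_odd (u : ℕ → ZMod 2) (x : ℕ) (hx : x % 2 = 1) : Ph u x = u (x / 2) := by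
  unfold Ph
  rw [if_neg (by omega)]

theorem CRN_Ph (u : ℕ → ZMod 2) (N : ℕ) (hu : CRN u N) : CRN (Ph u) (2 * N) := by
  classical
  intro i j n hn hij hN hp he hm
  by_cases hconst : ∀ t < n, Ph u (i + t) = 0
  · -- the palindrome is a power of `0`
    have hc := hconst
    rcases Nat.eq_or_lt_of_le (Nat.succ_le_of_lt hij) with h1 | h1
    · exact pal_const _ 0 i j n h1 hc hn he
    obtain ⟨h2, h3, h4⟩ := return_const _ 0 i j n hn h1 hc he hm
    have hc' : ∀ t < n, Ph u (j + t) = 0 := fun t ht => by rw [← he t ht]; exact hc t ht
    have e1 : (i + n) % 2 = 1 := by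
      by_contra h
      exact h2 (Ph_even u _ (by omega))
    have e2 : (j - 1) % 2 = 1 := by
      by_contra h
      exact h3 (Ph_even u _ (by omega))
    obtain ⟨a, ha⟩ : ∃ a, i + n = 2 * a + 1 := ⟨(i + n) / 2, by omega⟩
    obtain ⟨b, hb⟩ : ∃ b, j = 2 * b := ⟨j / 2, by omega⟩
    set q := n / 2 with hq
    have hz1 : ∀ x, i ≤ 2 * x + 1 → 2 * x + 1 < i + n → u x = 0 := by
      intro x h5 h6
      have := hc (2 * x + 1 - i) (by omega)
      rw [show i + (2 * x + 1 - i) = 2 * x + 1 by omega, Ph_odd u _ (by omega)] at this
      rwa [show (2 * x + 1) / 2 = x by omega] at this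
    have hz2 : ∀ x, j ≤ 2 * x + 1 → 2 * x + 1 < j + n → u x = 0 := by
      intro x h5 h6
      have := hc' (2 * x + 1 - j) (by omega)
      rw [show j + (2 * x + 1 - j) = 2 * x + 1 by omega, Ph_odd u _ (by omega)] at this
      rwa [show (2 * x + 1) / 2 = x by omega] at this
    have key : ∀ x y, a ≤ x → a ≤ y → x + y + 1 = a + b → u x = u y := by
      rcases Nat.eq_zero_or_pos q with h0 | h0
      · -- `n = 1`
        have hn1 : n = 1 := by omega
        intro x y hx hy hxy
        have hab : b = a + 1 := by
          by_contra hne
          refine hm (2 * a + 2) (by omega) (by omega) fun t ht => ?_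
          rw [hc t ht, Ph_even u _ (by omega)]
        have : x = y := by omega
        rw [this]
      · intro x y hx hy hxy
        refine hu (a - q) b q h0 (by omega) (by omega) ?_ ?_ ?_ x y (by omega) (by omega)
          (by omega)
        · intro x y hx hy hxy
          rw [hz1 x (by omega) (by omega), hz1 y (by omega) (by omega)]
        · intro t ht
          rw [hz1 (a - q + t) (by omega) (by omega), hz2 (b + t) (by omega) (by omega)]
        · intro m hm1 hm2 heq
          have hcm : ∀ t < q, u (m + t) = 0 := by
            intro t ht
            rw [← heq t ht]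
            exact hz1 _ (by omega) (by omega)
          refine hm (2 * m + i % 2) (by omega) (by omega) fun t ht => ?_
          rw [hc t ht]
          rcases Nat.mod_two_eq_zero_or_one (2 * m + i % 2 + t) with h5 | h5
          · rw [Ph_even u _ h5]
          · rw [Ph_odd u _ h5]
            have := hcm ((t + i % 2) / 2) (by omega)
            rw [← this]
            congr 1
            omega
    intro x y hx hy hxy
    rcases Nat.lt_or_ge x (i + n) with h5 | h5
    · have e3 := hc (x - i) (by omega)
      have e4 := hc' (y - j) (by omega)
      rw [show i + (x - i) = x by omega] at e3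
      rw [show j + (y - j) = y by omega] at e4
      rw [e3, e4]
    · rcases Nat.lt_or_ge y (i + n) with h6 | h6
      · have e3 := hc (y - i) (by omega)
        have e4 := hc' (x - j) (by omega)
        rw [show i + (y - i) = y by omega] at e3
        rw [show j + (x - j) = x by omega] at e4
        rw [e3, e4]
      · rcases Nat.mod_two_eq_zero_or_one x with h7 | h7
        · rw [Ph_even u x h7, Ph_even u y (by omega)]
        · rw [Ph_odd u x h7, Ph_odd u y (by omega)]
          exact key (x / 2) (y / 2) (by omega) (by omega) (by omega)
  · push Not at hconst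
    obtain ⟨t0, ht0, hne⟩ := hconst
    have e1 : (i + t0) % 2 = 1 := by
      by_contra h
      exact hne (Ph_even u _ (by omega))
    have hne2 : Ph u (j + t0) ≠ 0 := by
      rw [← he t0 ht0]
      exact hne
    have e2 : (j + t0) % 2 = 1 := by
      by_contra h
      exact hne2 (Ph_even u _ (by omega))
    have e3 : Ph u (i + t0) = Ph u (i + n - 1 - t0) :=
      hp _ _ (by omega) (by omega) (by omega)
    have e4 : (i + n - 1 - t0) % 2 = 1 := by
      by_contra h
      apply hne
      rw [e3]
      exact Ph_even u _ (by omega)
    have hnodd : n % 2 = 1 := by omega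
    have hpar : i % 2 = j % 2 := by omega
    have key : PalI u (i / 2) (j / 2 + (n / 2 + i % 2)) := by
      refine hu (i / 2) (j / 2) (n / 2 + i % 2) (by omega) (by omega) (by omega) ?_ ?_ ?_
      · intro x y hx hy hxy
        have := hp (2 * x + 1) (2 * y + 1) (by omega) (by omega) (by omega)
        rw [Ph_odd u _ (by omega), Ph_odd u _ (by omega)] at this
        rwa [show (2 * x + 1) / 2 = x by omega, show (2 * y + 1) / 2 = y by omega] at this
      · intro t ht
        have := he (2 * t + 1 - i % 2) (by omega)
        rw [Ph_odd u _ (by omega), Ph_odd u _ (by omega)] at this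
        rwa [show (i + (2 * t + 1 - i % 2)) / 2 = i / 2 + t by omega,
          show (j + (2 * t + 1 - i % 2)) / 2 = j / 2 + t by omega] at this
      · intro m hm1 hm2 heq
        refine hm (2 * m + i % 2) (by omega) (by omega) fun t ht => ?_
        rcases Nat.mod_two_eq_zero_or_one (i + t) with h5 | h5
        · rw [Ph_even u _ h5, Ph_even u _ (by omega)]
        · rw [Ph_odd u _ h5, Ph_odd u _ (by omega)]
          have := heq ((i % 2 + t) / 2) (by omega)
          rwa [show (i + t) / 2 = i / 2 + (i % 2 + t) / 2 by omega,
            show (2 * m + i % 2 + t) / 2 = m + (i % 2 + t) / 2 by omega]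
    intro x y hx hy hxy
    rcases Nat.mod_two_eq_zero_or_one x with h7 | h7
    · rw [Ph_even u x h7, Ph_even u y (by omega)]
    · rw [Ph_odd u x h7, Ph_odd u y (by omega)]
      exact key (x / 2) (y / 2) (by omega) (by omega) (by omega)

/-- renaming the letters -/
theorem CRN_map {β : Type*} (f : α → β) (hf : Function.Injective f) (u : ℕ → α) (N : ℕ)
    (hu : CRN u N) : CRN (fun n => f (u n)) N := by
  intro i j n hn hij hN hp he hm
  have := hu i j n hn hij hN (fun x y hx hy hxy => hf (hp x y hx hy hxy))
    (fun t ht => hf (he t ht)) (fun m h1 h2 h3 => hm m h1 h2 fun t ht => by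
      simp only
      rw [h3 t ht])
  intro x y hx hy hxy
  simp only
  rw [this x y hx hy hxy]

end Pool.Agent.KS6_71.TM
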