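import Pool.Agent.KS6_71.TM.Defs
import Pool.Agent.KS6_71.TM.CR

/-!
# Complete returns and the number of palindromes
-/

namespace Pool.Agent.KS6_71.TM

lemma factor_length (u : ℕ → ZMod 2) (i n : ℕ) : (factor u i n).length = n := by
  simp [factor]

lemma factor_getElem (u : ℕ → ZMod 2) (i n t : ℕ) (h : t < (factor u i n).length) :
    (factor u i n)[t] = u (i + t) := by
  simp [factor]

lemma factor_eq_iff (u : ℕ → ZMod 2) (i j n : ℕ) : factor u i n = factor u j n ↔ EqF u i j n := by
  constructor
  · intro h t ht
    have h1 : t < (factor u i n).length := by rw [factor_length]; exact ht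
    have h2 : t < (factor u j n).length := by rw [factor_length]; exact ht
    rw [← factor_getElem u i n t h1, ← factor_getElem u j n t h2]
    simp only [h]
  · intro h
    apply List.ext_getElem
    · rw [factor_length, factor_length]
    · intro t h1 h2
      rw [factor_getElem, factor_getElem]
      exact h t (by rwa [factor_length] at h1)

lemma factor_reverse_iff (u : ℕ → ZMod 2) (i n : ℕ) :
    (factor u i n).reverse = factor u i n ↔ PalI u i (i + n) := by
  constructor
  · intro h x y hx hy hxy
    have h1 : x - i < (factor u i n).length := by rw [factor_length]; omega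
    have h2 : x - i < (factor u i n).reverse.length := by rw [List.length_reverse]; exact h1
    have h3 : (factor u i n).reverse[x - i] = (factor u i n)[x - i] := by simp only [h]
    rw [List.getElem_reverse, factor_getElem, factor_getElem, factor_length] at h3
    rw [show i + (x - i) = x by omega, show i + (n - 1 - (x - i)) = y by omega] at h3
    exact h3.symm
  · intro h
    apply List.ext_getElem
    · rw [List.length_reverse]
    · intro t h1 h2
      rw [factor_length] at h2
      rw [List.getElem_reverse, factor_getElem, factor_getElem, factor_length]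
      exact h _ _ (by omega) (by omega) (by omega)

lemma factor_append (u : ℕ → ZMod 2) (i m n : ℕ) :
    factor u i (m + n) = factor u i m ++ factor u (i + m) n := by
  apply List.ext_getElem
  · simp [factor_length]
  · intro t h1 h2
    rw [factor_getElem, List.getElem_append]
    split_ifs with h
    · rw [factor_getElem]
    · rw [factor_getElem]
      rw [factor_length] at h ⊢
      congr 1
      omega

lemma factor_infix_iff (u : ℕ → ZMod 2) (i n : ℕ) (p : List (ZMod 2)) :
    p <:+: factor u i n ↔ ∃ j l, i ≤ j ∧ j + l ≤ i + n ∧ p = factor u j l := by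
  constructor
  · rintro ⟨s, r, h⟩
    have hlen := congrArg List.length h
    rw [factor_length, List.length_append, List.length_append] at hlen
    refine ⟨i + s.length, p.length, by omega, by omega, ?_⟩
    have e : n = s.length + (p.length + r.length) := by omega
    rw [e, factor_append, factor_append, ← List.append_assoc] at h
    have h1 := List.append_inj h (by
      rw [List.length_append, List.length_append, factor_length, factor_length])
    exact (List.append_inj h1.1 (by rw [factor_length])).2
  · rintro ⟨j, l, h1, h2, rfl⟩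
    refine ⟨factor u i (j - i), factor u (j + l) (i + n - (j + l)), ?_⟩
    have e1 : factor u i (j - i) ++ factor u j l = factor u i (j - i + l) := by
      rw [factor_append, show i + (j - i) = j by omega]
    rw [e1]
    have e2 : factor u (j + l) (i + n - (j + l)) =
        factor u (i + (j - i + l)) (i + n - (j + l)) := by
      congr 1
      omega
    rw [e2, ← factor_append]
    congr 1
    omega

/-- palindromic factors, described by positions -/
lemma Pal_factor (u : ℕ → ZMod 2) (i n : ℕ) : Pal (factor u i n) =
    {p | ∃ j l, i ≤ j ∧ j + l ≤ i + n ∧ PalI u j (j + l) ∧ p = factor u j l} := by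
  ext p
  simp only [Pal, Set.mem_ofPred_eq, factor_infix_iff]
  constructor
  · rintro ⟨⟨j, l, h1, h2, rfl⟩, h3⟩
    exact ⟨j, l, h1, h2, (factor_reverse_iff u j l).1 h3, rfl⟩
  · rintro ⟨j, l, h1, h2, h3, rfl⟩
    exact ⟨⟨j, l, h1, h2, rfl⟩, (factor_reverse_iff u j l).2 h3⟩

lemma Pal_finite (w : List (ZMod 2)) : (Pal w).Finite :=
  (List.finite_length_le (ZMod 2) w.length).subset fun _ hp => hp.1.length_le

lemma PalI_of_EqF (u : ℕ → ZMod 2) (m j n : ℕ) (h : EqF u m j n) (hp : PalI u j (j + n)) :
    PalI u m (m + n) := by
  intro x y hx hy hxy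
  have h1 := h (x - m) (by omega)
  have h2 := h (y - m) (by omega)
  rw [show m + (x - m) = x by omega] at h1
  rw [show m + (y - m) = y by omega] at h2
  rw [h1, h2]
  exact hp _ _ (by omega) (by omega) (by omega)

/-- The new palindromes when a letter is added: only the longest palindromic end. -/
lemma Pal_succ (u : ℕ → ZMod 2) (i n i0 : ℕ) (h1 : i ≤ i0) (h2 : i0 ≤ i + n)
    (hp : PalI u i0 (i + n + 1)) (hmin : ∀ j, i ≤ j → j < i0 → ¬ PalI u j (i + n + 1)) :
    Pal (factor u i (n + 1)) = insert (factor u i0 (i + n + 1 - i0)) (Pal (factor u i n)) := by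
  rw [Pal_factor, Pal_factor]
  ext p
  simp only [Set.mem_ofPred_eq, Set.mem_insert_iff]
  constructor
  · rintro ⟨j, l, e1, e2, e3, rfl⟩
    rcases Nat.lt_or_ge (i + n) (j + l) with h | h
    · rcases Nat.eq_zero_or_pos l with hl | hl
      · subst hl
        right
        refine ⟨i, 0, le_rfl, by omega, ?_, by simp [factor]⟩
        intro x y hx hy hxy
        omega
      · have hjl : j + l = i + n + 1 := by omega
        rcases Nat.lt_trichotomy j i0 with h3 | h3 | h3
        · exact absurd (by rw [← hjl]; exact e3) (hmin j e1 h3)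
        · left
          rw [h3]
          congr 1
          omega
        · right
          have he : EqF u i0 j l := by
            intro s hs
            have a1 := hp (i0 + s) (i + n - s) (by omega) (by omega) (by omega)
            have a2 := e3 (j + s) (i + n - s) (by omega) (by omega) (by omega)
            rw [a1, a2]
          refine ⟨i0, l, h1, by omega, PalI_of_EqF u i0 j l he e3, ?_⟩
          exact ((factor_eq_iff u i0 j l).2 he).symm
    · exact Or.inr ⟨j, l, e1, h, e3, rfl⟩
  · rintro (rfl | ⟨j, l, e1, e2, e3, rfl⟩)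
    · refine ⟨i0, i + n + 1 - i0, h1, by omega, ?_, rfl⟩
      rwa [show i0 + (i + n + 1 - i0) = i + n + 1 by omega]
    · exact ⟨j, l, e1, by omega, e3, rfl⟩

lemma exists_min_end (u : ℕ → ZMod 2) (i n : ℕ) : ∃ i0, i ≤ i0 ∧ i0 ≤ i + n ∧
    PalI u i0 (i + n + 1) ∧ ∀ j, i ≤ j → j < i0 → ¬ PalI u j (i + n + 1) := by
  classical
  have hex : ∃ j, i ≤ j ∧ j ≤ i + n ∧ PalI u j (i + n + 1) := by
    refine ⟨i + n, by omega, le_rfl, ?_⟩
    intro x y hx hy hxy
    have : x = y := by omega
    rw [this]
  refine ⟨Nat.find hex, (Nat.find_spec hex).1, (Nat.find_spec hex).2.1, (Nat.find_spec hex).2.2,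
    fun j h1 h2 h3 => Nat.find_min hex h2 ⟨h1, ?_, h3⟩⟩
  have := (Nat.find_spec hex).2.1
  omega

lemma Pal_card_le (u : ℕ → ZMod 2) (i n : ℕ) : (Pal (factor u i n)).ncard ≤ n + 1 := by
  induction n with
  | zero =>
    have : Pal (factor u i 0) ⊆ {[]} := by
      rintro p ⟨h1, _⟩
      simp only [factor, List.range_zero, List.map_nil, List.infix_nil] at h1
      exact h1
    calc (Pal (factor u i 0)).ncard ≤ ({[]} : Set (List (ZMod 2))).ncard :=
          Set.ncard_le_ncard this (Set.finite_singleton _)
      _ = 0 + 1 := by rw [Set.ncard_singleton]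
  | succ n ih =>
    obtain ⟨i0, h1, h2, h3, h4⟩ := exists_min_end u i n
    rw [Pal_succ u i n i0 h1 h2 h3 h4]
    exact (Set.ncard_insert_le _ _).trans (by omega)

/-- Words all of whose complete returns to palindromes are palindromes are rich. -/
theorem rich_of_CR (u : ℕ → ZMod 2) (hu : ∀ N, CRN u N) : Rich u := by
  classical
  intro i n
  induction n with
  | zero =>
    have : Pal (factor u i 0) = {[]} := by
      ext p
      simp only [Pal, factor, List.range_zero, List.map_nil, List.infix_nil, Set.mem_ofPred_eq,
        Set.mem_singleton_iff]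
      constructor
      · exact fun h => h.1
      · rintro rfl
        exact ⟨rfl, rfl⟩
    rw [this, Set.ncard_singleton]
  | succ n ih =>
    obtain ⟨i0, h1, h2, h3, h4⟩ := exists_min_end u i n
    rw [Pal_succ u i n i0 h1 h2 h3 h4, Set.ncard_insert_of_notMem _ (Pal_finite _), ih]
    rw [Pal_factor]
    rintro ⟨m, l, e1, e2, e3, e4⟩
    have hl : l = i + n + 1 - i0 := by
      have := congrArg List.length e4
      rw [factor_length, factor_length] at this
      exact this.symm
    subst hl
    set L := i + n + 1 - i0 with hL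
    have hi0L : i0 + L = i + n + 1 := by omega
    have hEq0 : EqF u m i0 L := (factor_eq_iff u m i0 L).1 e4.symm
    let Q : ℕ → Prop := fun m' => i ≤ m' ∧ m' < i0 ∧ EqF u m' i0 L
    have hQm : Q m := ⟨e1, by omega, hEq0⟩
    set M := Nat.findGreatest Q i0 with hM
    have hQM : Q M := Nat.findGreatest_spec (m := m) (by omega) hQm
    obtain ⟨g1, g2, g3⟩ := hQM
    have hpal : PalI u M (i0 + L) := by
      refine hu (i0 + L) M i0 L (by omega) g2 le_rfl ?_ g3 ?_
      · exact PalI_of_EqF u M i0 L g3 (by rw [hi0L]; exact h3)
      · intro m' k1 k2 k3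
        have : Q m' := ⟨by omega, k2, fun s hs => by rw [← k3 s hs, g3 s hs]⟩
        exact absurd (Nat.le_findGreatest (by omega : m' ≤ i0) this) (by omega)
    rw [hi0L] at hpal
    exact h4 M g1 g2 hpal

/-- A criterion for a word not to be rich. -/
theorem not_rich_of (u : ℕ → ZMod 2) (i n i0 m : ℕ) (h1 : i ≤ i0) (h2 : i0 ≤ i + n)
    (h3 : PalI u i0 (i + n + 1)) (h4 : ∀ j, i ≤ j → j < i0 → ¬ PalI u j (i + n + 1))
    (h5 : i ≤ m) (h6 : m < i0) (h7 : EqF u m i0 (i + n + 1 - i0)) : ¬ Rich u := by
  intro hr
  have e1 := hr i (n + 1)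
  rw [Pal_succ u i n i0 h1 h2 h3 h4, Set.insert_eq_of_mem] at e1
  · have := Pal_card_le u i n
    omega
  · rw [Pal_factor]
    refine ⟨m, i + n + 1 - i0, h5, by omega, ?_, ((factor_eq_iff u m i0 _).2 h7).symm⟩
    refine PalI_of_EqF u m i0 _ h7 ?_
    rwa [show i0 + (i + n + 1 - i0) = i + n + 1 by omega]

end Pool.Agent.KS6_71.TM
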