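import Mathlib

/-!
# The operation `S`, the words `t_{b,2}` and richness
-/

namespace Pool.Agent.KS6_71.TM

/-- The operation `S` on binary words (letters `0, 1` in `ZMod 2`). -/
def S (u : ℕ → ZMod 2) : ℕ → ZMod 2 := fun n => u n + u (n + 1)

/-- The generalized Thue-Morse word `t_{b,2}`: the sum of the digits of `n` in base `b`, mod `2`. -/
def t (b : ℕ) : ℕ → ZMod 2 := fun n => ((Nat.digits b n).sum : ZMod 2)

/-- The factor `u_i u_{i+1} ... u_{i+n-1}`. -/
def factor (u : ℕ → ZMod 2) (i n : ℕ) : List (ZMod 2) := (List.range n).map fun j => u (i + j)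

/-- The palindromic factors of a finite word, the empty word included. -/
def Pal (w : List (ZMod 2)) : Set (List (ZMod 2)) := {p | p <:+: w ∧ p.reverse = p}

/-- An infinite word is rich if each of its factors `w` has `|w| + 1` palindromic factors. -/
def Rich (u : ℕ → ZMod 2) : Prop := ∀ i n, (Pal (factor u i n)).ncard = n + 1

end Pool.Agent.KS6_71.TM
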