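import Pool.Agent.KS6_71.TM.Pos

/-!
# Even bases that are not powers of two
-/

namespace Pool.Agent.KS6_71.TM

lemma S_two_pow (M : ℕ) : ∀ (u : ℕ → ZMod 2) (n : ℕ), S^[2 ^ M] u n = u n + u (n + 2 ^ M) := by
  induction M with
  | zero => intro u n; rfl
  | succ M ih =>
    intro u n
    rw [pow_succ, mul_two, Function.iterate_add_apply, ih, ih, ih]
    have h := z2_add_self (u (n + 2 ^ M))
    rw [show n + 2 ^ M + 2 ^ M = n + (2 ^ M + 2 ^ M) by ring]
    linear_combination h

lemma s_one (b : ℕ) (hb : 2 ≤ b) (q j : ℕ) (hj : j + 1 < b) : S (t b) (b * q + j) = 1 := by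
  unfold S
  rw [t_rec b hb q j (by omega), show b * q + j + 1 = b * q + (j + 1) by ring,
    t_rec b hb q (j + 1) hj]
  push_cast
  have h1 := z2_add_self (t b q)
  have h2 := z2_add_self (j : ZMod 2)
  linear_combination h1 + h2

lemma s_last (b : ℕ) (hb : 2 ≤ b) (heven : b % 2 = 0) (q : ℕ) :
    S (t b) (b * q + (b - 1)) = 1 + S (t b) q := by
  unfold S
  rw [t_rec b hb q (b - 1) (by omega),
    show b * q + (b - 1) + 1 = b * (q + 1) + 0 by rw [mul_add]; omega,
    t_rec b hb (q + 1) 0 (by omega)]
  have h : ((b - 1 : ℕ) : ZMod 2) = 1 := by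
    have : ((b - 1 : ℕ) : ZMod 2) = ((1 : ℕ) : ZMod 2) := by
      rw [ZMod.natCast_eq_natCast_iff]
      change (b - 1) % 2 = 1 % 2
      omega
    simpa using this
  rw [h]
  push_cast
  ring

/-- the values of `S^{Q+1}(t_{b,2})` on a window; `Q = b + c` -/
lemma window (b c M : ℕ) (hb : 5 ≤ b) (heven : b % 2 = 0) (hc : 0 < c) (hcb : c < b)
    (hQ : b + c = 2 ^ M) (y : ℕ) (hy : y + c ≤ 3 * b) :
    S^[2 ^ M + 1] (t b) (b * (b - 4) + (b - 1) + y) =
      if y = 0 ∨ y + c = b ∨ y = b ∨ y = 2 * b ∨ y + c = 3 * b then 1 else 0 := by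
  rw [Function.iterate_succ_apply, S_two_pow]
  have hb2 : 2 ≤ b := by omega
  -- values of s
  have s0 : S (t b) 0 = 1 := by
    have := s_one b hb2 0 0 (by omega)
    simpa using this
  have sj : ∀ j, j + 1 < b → S (t b) j = 1 := by
    intro j hj
    have := s_one b hb2 0 j hj
    simpa using this
  have sb1 : S (t b) (b - 1) = 0 := by
    have := s_last b hb2 heven 0
    simp only [mul_zero, zero_add] at this
    rw [this, s0]
    exact z2_add_self 1
  have sb : S (t b) b = 1 := by
    have := s_one b hb2 1 0 (by omega)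
    simpa using this
  have m1 : b * (b - 3) = b * (b - 4) + b := by
    rw [show b - 3 = b - 4 + 1 by omega]; ring
  have m2 : b * (b - 2) = b * (b - 4) + 2 * b := by
    rw [show b - 2 = b - 4 + 2 by omega]; ring
  have m3 : b * (b - 1) = b * (b - 4) + 3 * b := by
    rw [show b - 1 = b - 4 + 3 by omega]; ring
  have m4 : b * b = b * (b - 4) + 4 * b := by
    nth_rewrite 2 [show b = b - 4 + 4 by omega]; ring
  have e1 : S (t b) (b * (b - 4) + (b - 1) + y) = if y = 0 ∨ y = b ∨ y = 2 * b then 0 else 1 := by
    rcases Nat.eq_zero_or_pos y with h | h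
    · subst h
      rw [if_pos (Or.inl rfl), Nat.add_zero, s_last b hb2 heven, sj _ (by omega)]
      exact z2_add_self 1
    · rcases Nat.lt_trichotomy y b with h1 | h1 | h1
      · rw [if_neg (by omega), show b * (b - 4) + (b - 1) + y = b * (b - 3) + (y - 1) by omega]
        exact s_one b hb2 _ _ (by omega)
      · rw [if_pos (by omega), show b * (b - 4) + (b - 1) + y = b * (b - 3) + (b - 1) by omega,
          s_last b hb2 heven, sj _ (by omega)]
        exact z2_add_self 1
      · rcases Nat.lt_trichotomy y (2 * b) with h2 | h2 | h2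
        · rw [if_neg (by omega),
            show b * (b - 4) + (b - 1) + y = b * (b - 2) + (y - b - 1) by omega]
          exact s_one b hb2 _ _ (by omega)
        · rw [if_pos (by omega), show b * (b - 4) + (b - 1) + y = b * (b - 2) + (b - 1) by omega,
            s_last b hb2 heven, sj _ (by omega)]
          exact z2_add_self 1
        · rw [if_neg (by omega),
            show b * (b - 4) + (b - 1) + y = b * (b - 1) + (y - 2 * b - 1) by omega]
          exact s_one b hb2 _ _ (by omega)
  have e2 : S (t b) (b * (b - 4) + (b - 1) + y + 2 ^ M) =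
      if y + c = b ∨ y + c = 3 * b then 0 else 1 := by
    rw [← hQ]
    rcases Nat.lt_trichotomy (y + c) b with h1 | h1 | h1
    · rw [if_neg (by omega),
        show b * (b - 4) + (b - 1) + y + (b + c) = b * (b - 2) + (y + c - 1) by omega]
      exact s_one b hb2 _ _ (by omega)
    · rw [if_pos (by omega),
        show b * (b - 4) + (b - 1) + y + (b + c) = b * (b - 2) + (b - 1) by omega,
        s_last b hb2 heven, sj _ (by omega)]
      exact z2_add_self 1
    · rcases Nat.lt_trichotomy (y + c) (2 * b) with h2 | h2 | h2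
      · rw [if_neg (by omega),
          show b * (b - 4) + (b - 1) + y + (b + c) = b * (b - 1) + (y + c - b - 1) by omega]
        exact s_one b hb2 _ _ (by omega)
      · rw [if_neg (by omega),
          show b * (b - 4) + (b - 1) + y + (b + c) = b * (b - 1) + (b - 1) by omega,
          s_last b hb2 heven, sb1, add_zero]
      · rcases Nat.lt_or_ge (y + c) (3 * b) with h3 | h3
        · rw [if_neg (by omega),
            show b * (b - 4) + (b - 1) + y + (b + c) = b * b + (y + c - 2 * b - 1) by omega]
          exact s_one b hb2 _ _ (by omega)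
        · rw [if_pos (by omega),
            show b * (b - 4) + (b - 1) + y + (b + c) = b * b + (b - 1) by omega,
            s_last b hb2 heven, sb]
          exact z2_add_self 1
  rw [e1, e2]
  by_cases h1 : y = 0 ∨ y = b ∨ y = 2 * b
  · rw [if_pos h1, if_neg (by omega), if_pos (by omega), zero_add]
  · by_cases h2 : y + c = b ∨ y + c = 3 * b
    · rw [if_neg h1, if_pos h2, if_pos (by omega), add_zero]
    · rw [if_neg h1, if_neg h2, if_neg (by omega)]
      exact z2_add_self 1

theorem not_rich (b M : ℕ) (heven : b % 2 = 0) (h1 : b < 2 ^ M) (h2 : 2 ^ M < 2 * b) :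
    ¬ Rich (S^[2 ^ M + 1] (t b)) := by
  have hM : 3 ≤ M := by
    by_contra h
    have : M = 0 ∨ M = 1 ∨ M = 2 := by omega
    rcases this with rfl | rfl | rfl <;> norm_num at h1 h2 <;> omega
  have h8 : 8 ≤ 2 ^ M := by
    calc 8 = 2 ^ 3 := rfl
      _ ≤ 2 ^ M := Nat.pow_le_pow_right (by omega) hM
  obtain ⟨c, hc⟩ : ∃ c, b + c = 2 ^ M := ⟨2 ^ M - b, by omega⟩
  have hb : 5 ≤ b := by omega
  have h2c : b ≠ 2 * c := by
    intro h
    have h3 : 3 ∣ 2 ^ M := ⟨c, by omega⟩
    have := (Nat.Prime.dvd_of_dvd_pow Nat.prime_three h3)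
    omega
  set x := S^[2 ^ M + 1] (t b) with hx
  set i := b * (b - 4) + (b - 1) with hi
  have hw : ∀ y, y + c ≤ 3 * b → x (i + y) =
      if y = 0 ∨ y + c = b ∨ y = b ∨ y = 2 * b ∨ y + c = 3 * b then 1 else 0 :=
    fun y hy => window b c M hb heven (by omega) (by omega) hc y hy
  have h01 : (0 : ZMod 2) ≠ 1 := by decide
  have hval : ∀ z, i ≤ z → z + c ≤ i + 3 * b → x z =
      if z = i ∨ z + c = i + b ∨ z = i + b ∨ z = i + 2 * b ∨ z + c = i + 3 * b then 1 else 0 := by
    intro z hz1 hz2
    have := hw (z - i) (by omega)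
    rw [show i + (z - i) = z by omega] at this
    rw [this]
    congr 1
    apply propext
    omega
  refine not_rich_of x i (3 * b - c) (i + 2 * b) i (by omega) (by omega) ?_ ?_ le_rfl (by omega) ?_
  · intro z z' hz hz' hzz
    rw [hval z (by omega) (by omega), hval z' (by omega) (by omega)]
    congr 1
    apply propext
    omega
  · intro j hj1 hj2 hp
    have e1 := hp j (i + (3 * b - c)) (by omega) (by omega) (by omega)
    rw [hval j hj1 (by omega), hval (i + (3 * b - c)) (by omega) (by omega),
      if_pos (show i + (3 * b - c) = i ∨ i + (3 * b - c) + c = i + b ∨ i + (3 * b - c) = i + b ∨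
        i + (3 * b - c) = i + 2 * b ∨ i + (3 * b - c) + c = i + 3 * b by omega)] at e1
    have e2 : j = i ∨ j + c = i + b ∨ j = i + b := by
      by_contra h
      rw [if_neg (by omega)] at e1
      exact h01 e1
    rcases e2 with e2 | e2 | e2
    · have e3 := hp (i + b) (i + 2 * b - c) (by omega) (by omega) (by omega)
      rw [hval _ (by omega) (by omega), hval _ (by omega) (by omega),
        if_pos (by omega), if_neg (by omega)] at e3
      exact h01 e3.symm
    · have e3 := hp (i + 2 * b) (i + 2 * b - 2 * c) (by omega) (by omega) (by omega)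
      rw [hval _ (by omega) (by omega), hval _ (by omega) (by omega),
        if_pos (by omega), if_neg (by omega)] at e3
      exact h01 e3.symm
    · have e3 := hp (i + 2 * b) (i + 2 * b - c) (by omega) (by omega) (by omega)
      rw [hval _ (by omega) (by omega), hval _ (by omega) (by omega),
        if_pos (by omega), if_neg (by omega)] at e3
      exact h01 e3.symm
  · intro s hs
    rw [hval _ (by omega) (by omega), hval _ (by omega) (by omega)]
    congr 1
    apply propext
    omega

end Pool.Agent.KS6_71.TM
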