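import Pool.Agent.KS6_71.TM.Count

/-!
# Powers of two and odd bases
-/

namespace Pool.Agent.KS6_71.TM

lemma z2_add_self (a : ZMod 2) : a + a = 0 := by
  rw [← two_mul]
  have : (2 : ZMod 2) = 0 := by decide
  rw [this, zero_mul]

lemma CRN_mono {α : Type*} (u : ℕ → α) (N N' : ℕ) (h : N' ≤ N) (hu : CRN u N) : CRN u N' :=
  fun i j n h1 h2 h3 => hu i j n h1 h2 (h3.trans h)

/-- the recurrence of the sum of digits -/
lemma t_rec (b : ℕ) (hb : 2 ≤ b) (q j : ℕ) (hj : j < b) : t b (b * q + j) = t b q + (j : ZMod 2) := by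
  unfold t
  rcases Nat.eq_zero_or_pos (b * q + j) with h | h
  · have hj0 : j = 0 := by omega
    have hq0 : q = 0 := by
      rcases Nat.eq_zero_or_pos q with h' | h'
      · exact h'
      · have := Nat.mul_pos (by omega : 0 < b) h'
        omega
    subst hj0
    subst hq0
    simp
  · have h1 : Nat.digits b (b * q + j) = j :: Nat.digits b q := by
      rw [Nat.digits_def' (by omega) h]
      congr 1
      · rw [Nat.mul_add_mod, Nat.mod_eq_of_lt hj]
      · rw [Nat.mul_add_div (by omega), Nat.div_eq_of_lt hj, Nat.add_zero]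
    rw [h1, List.sum_cons]
    push_cast
    ring

lemma S_D (u : ℕ → ZMod 2) : S (D u) = Ph (S u) := by
  funext n
  unfold S D
  rcases Nat.mod_two_eq_zero_or_one n with h | h
  · rw [Ph_even _ n h, show (n + 1) / 2 = n / 2 by omega]
    exact z2_add_self _
  · rw [Ph_odd _ n h, show (n + 1) / 2 = n / 2 + 1 by omega]

lemma S_Ph (u : ℕ → ZMod 2) : S (Ph u) = D u := by
  funext n
  unfold S D
  rcases Nat.mod_two_eq_zero_or_one n with h | h
  · rw [Ph_even _ n h, Ph_odd _ (n + 1) (by omega), show (n + 1) / 2 = n / 2 by omega, zero_add]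
  · rw [Ph_odd _ n h, Ph_even _ (n + 1) (by omega), add_zero]

lemma S_even_D (q : ℕ) : ∀ u : ℕ → ZMod 2, S^[2 * q] (D u) = D (S^[q] u) := by
  induction q with
  | zero => intro u; rfl
  | succ q ih =>
    intro u
    rw [show 2 * (q + 1) = 2 * q + 1 + 1 by ring, Function.iterate_succ_apply,
      Function.iterate_succ_apply, S_D, S_Ph, ih, Function.iterate_succ_apply]

lemma S_odd_D (q : ℕ) (u : ℕ → ZMod 2) : S^[2 * q + 1] (D u) = Ph (S^[q + 1] u) := by
  rw [Function.iterate_succ_apply', S_even_D, S_D, Function.iterate_succ_apply']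

lemma CR_SD (m : ℕ) : ∀ (k : ℕ) (u : ℕ → ZMod 2), 1 ≤ k →
    (∀ N, CRN (S^[(k + 2 ^ m - 1) / 2 ^ m] u) N) → ∀ N, CRN (S^[k] (D^[m] u)) N := by
  induction m with
  | zero =>
    intro k u _ h N
    have := h N
    simpa using this
  | succ m ih =>
    intro k u hk h N
    rw [Function.iterate_succ_apply']
    have hpos : 0 < 2 ^ m := by positivity
    rcases Nat.even_or_odd' k with ⟨q, rfl | rfl⟩
    · rw [S_even_D]
      refine CRN_mono _ (2 * N) N (by omega) (CRN_D _ N (ih q u (by omega) ?_ N))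
      have e : (2 * q + 2 ^ (m + 1) - 1) / 2 ^ (m + 1) = (q + 2 ^ m - 1) / 2 ^ m := by
        rw [pow_succ', ← Nat.div_div_eq_div_mul]
        congr 1
        omega
      rwa [e] at h
    · rw [S_odd_D]
      refine CRN_mono _ (2 * N) N (by omega) (CRN_Ph _ N (ih (q + 1) u (by omega) ?_ N))
      have e : (2 * q + 1 + 2 ^ (m + 1) - 1) / 2 ^ (m + 1) = (q + 1 + 2 ^ m - 1) / 2 ^ m := by
        rw [pow_succ', ← Nat.div_div_eq_div_mul]
        congr 1
        omega
      rwa [e] at h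

lemma D_iterate (m : ℕ) : ∀ u : ℕ → ZMod 2, D^[m] u = fun n => u (n / 2 ^ m) := by
  induction m with
  | zero => intro u; funext n; simp
  | succ m ih =>
    intro u
    rw [Function.iterate_succ_apply, ih]
    funext n
    unfold D
    rw [Nat.div_div_eq_div_mul, ← pow_succ]

lemma t_pow (m : ℕ) (hm : 1 ≤ m) (n : ℕ) : t (2 ^ m) n = D^[m] (t (2 ^ m)) n + (n : ZMod 2) := by
  rw [D_iterate]
  have hb : 2 ≤ 2 ^ m := by
    calc 2 = 2 ^ 1 := rfl
      _ ≤ 2 ^ m := Nat.pow_le_pow_right (by omega) hm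
  have h1 := t_rec (2 ^ m) hb (n / 2 ^ m) (n % 2 ^ m) (Nat.mod_lt _ (by omega))
  rw [Nat.div_add_mod] at h1
  rw [h1]
  congr 1
  have h2 : ((2 ^ m : ℕ) : ZMod 2) = 0 := by
    obtain ⟨m', rfl⟩ : ∃ m', m = m' + 1 := ⟨m - 1, by omega⟩
    rw [pow_succ]
    push_cast
    have : (2 : ZMod 2) = 0 := by decide
    rw [this, mul_zero]
  conv_rhs => rw [← Nat.div_add_mod n (2 ^ m)]
  rw [Nat.cast_add, Nat.cast_mul, h2, zero_mul, zero_add]

lemma S_t_pow (m : ℕ) (hm : 1 ≤ m) :
    S (t (2 ^ m)) = fun n => 1 + S (D^[m] (t (2 ^ m))) n := by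
  funext n
  unfold S
  rw [t_pow m hm n, t_pow m hm (n + 1)]
  push_cast
  have h := z2_add_self (n : ZMod 2)
  linear_combination h

lemma S_one_add (u : ℕ → ZMod 2) : S (fun n => 1 + u n) = S u := by
  funext n
  unfold S
  have h := z2_add_self (1 : ZMod 2)
  linear_combination h

lemma S_iter_t_pow (m : ℕ) (hm : 1 ≤ m) (k : ℕ) (hk : 2 ≤ k) :
    S^[k] (t (2 ^ m)) = S^[k] (D^[m] (t (2 ^ m))) := by
  obtain ⟨k, rfl⟩ : ∃ k', k = k' + 2 := ⟨k - 2, by omega⟩
  rw [Function.iterate_add_apply, Function.iterate_add_apply]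
  congr 1
  change S (S (t (2 ^ m))) = S (S (D^[m] (t (2 ^ m))))
  rw [S_t_pow m hm, S_one_add]

lemma S_D_iterate (m : ℕ) : ∀ u : ℕ → ZMod 2, S (D^[m] u) = Ph^[m] (S u) := by
  induction m with
  | zero => intro u; rfl
  | succ m ih =>
    intro u
    rw [Function.iterate_succ_apply', S_D, ih, Function.iterate_succ_apply']

lemma CRN_Ph_iterate (m : ℕ) : ∀ (u : ℕ → ZMod 2) (N : ℕ), CRN u N → CRN (Ph^[m] u) (2 ^ m * N) := by
  induction m with
  | zero => intro u N h; simpa using h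
  | succ m ih =>
    intro u N h
    rw [Function.iterate_succ_apply']
    have := CRN_Ph _ _ (ih u N h)
    rwa [← mul_assoc, ← pow_succ'] at this

lemma CR_one (m : ℕ) (hm : 1 ≤ m) (N : ℕ) : CRN (S (t (2 ^ m))) N := by
  have key : ∀ e : ℕ, CRN (S (t (2 ^ m))) (2 ^ (m * e)) := by
    intro e
    induction e with
    | zero =>
      intro i j n h1 h2 h3
      rw [Nat.mul_zero, pow_zero] at h3
      omega
    | succ e ih =>
      have h1 := CRN_Ph_iterate m _ _ ih
      rw [← S_D_iterate] at h1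
      have h2 := CRN_map (fun a : ZMod 2 => 1 + a) (fun a b h => by simpa using h) _ _ h1
      rw [← S_t_pow m hm] at h2
      rwa [← pow_add, show m + m * e = m * (e + 1) by ring] at h2
  refine CRN_mono _ _ _ ?_ (key N)
  calc N ≤ 2 ^ N := Nat.lt_two_pow_self.le
    _ ≤ 2 ^ (m * N) := Nat.pow_le_pow_right (by omega) (Nat.le_mul_of_pos_left N (by omega))

/-- All `S^k(t_{2^m,2})` have the return property. -/
theorem CR_pow (m : ℕ) (hm : 1 ≤ m) (k : ℕ) (hk : 1 ≤ k) (N : ℕ) :
    CRN (S^[k] (t (2 ^ m))) N := by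
  induction k using Nat.strong_induction_on generalizing N with
  | _ k ih =>
    rcases Nat.eq_or_lt_of_le hk with h | h
    · rw [← h]
      exact CR_one m hm N
    · rw [S_iter_t_pow m hm k h]
      have hb : 2 ≤ 2 ^ m := by
        calc 2 = 2 ^ 1 := rfl
          _ ≤ 2 ^ m := Nat.pow_le_pow_right (by omega) hm
      refine CR_SD m k _ hk (fun N' => ih _ ?_ ?_ N') N
      · rw [Nat.div_lt_iff_lt_mul (by omega)]
        have := Nat.add_le_mul h hb
        omega
      · rw [Nat.le_div_iff_mul_le (by omega)]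
        omega

theorem rich_pow (m : ℕ) (hm : 1 ≤ m) (k : ℕ) (hk : 1 ≤ k) : Rich (S^[k] (t (2 ^ m))) :=
  rich_of_CR _ fun N => CR_pow m hm k hk N

/-- constant words -/
lemma CRN_const (c : ZMod 2) (N : ℕ) : CRN (fun _ => c) N :=
  fun _ _ _ _ _ _ _ _ _ _ _ _ _ _ => rfl

theorem rich_odd (b : ℕ) (hb : b % 2 = 1) (k : ℕ) (hk : 1 ≤ k) : Rich (S^[k] (t b)) := by
  have ht : ∀ n, t b n = (n : ZMod 2) := by
    intro n
    unfold t
    have := Nat.modEq_digits_sum 2 b hb n
    exact ((ZMod.natCast_eq_natCast_iff _ _ _).2 this).symm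
  have hS : S (t b) = fun _ => 1 := by
    funext n
    unfold S
    rw [ht, ht]
    push_cast
    have h := z2_add_self (n : ZMod 2)
    linear_combination h
  obtain ⟨k, rfl⟩ : ∃ k', k = k' + 1 := ⟨k - 1, by omega⟩
  have key : ∀ k, ∃ c : ZMod 2, S^[k + 1] (t b) = fun _ => c := by
    intro k
    induction k with
    | zero => exact ⟨1, hS⟩
    | succ k ih =>
      obtain ⟨c, hc⟩ := ih
      refine ⟨0, ?_⟩
      rw [Function.iterate_succ_apply', hc]
      funext n
      exact z2_add_self c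
  obtain ⟨c, hc⟩ := key k
  rw [hc]
  exact rich_of_CR _ fun N => CRN_const c N

end Pool.Agent.KS6_71.TM
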